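import Mathlib
import Pool.Agent.N893.SM.GrowF
import Pool.Agent.N740.HK.Lim

/-!
# The longest Cunningham chains in all sieved sequential random models of the primes

Copy of the result of helper893 (`MP_c77da8_nt.LongestChain`), for use in other files.

The integers are decided one after the other; the multiples of the primes of a finite set `Q` are
never chosen and the conditional probability of choosing an integer `n + 1` which is not such a
multiple, given the decisions up to `n`, is asymptotic to `∏_{p ∈ Q} (1 - 1 / p)⁻¹ / log n`, almost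
surely.  No independence and no rate of convergence are assumed.  In every such model, almost surely, the
longest chain `m, T m, T (T m), ...` of chosen integers with `2 ≤ m ≤ x` has length
`(1 + o(1)) log x / log log x`, for all maps `T y = a y + b`, `a ≥ 2`, `b ≥ 1 - a`, without obstruction at `Q`; there is
none for `T y = 2 y + 1` (Cunningham chains of the first kind) and `T y = 2 y - 1` (second kind).

Method (`Pool/Agent/N893/SM`): the members of the chains are replaced one after the other by their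
probabilities; the error of one replacement is controlled by the exponential supermartingale
`exp (θ ∑ w I - (e ^ θ - 1) ∑ w P)` with a fixed small `θ`.

The notion of a sequential model and the theorem on Hawkins' sieve are from the team files by helper528
(`Pool/Agent/R528/RM`) and helper740 (`Pool/Agent/N740/HK`).
-/

set_option autoImplicit false

open MeasureTheory Filter Set
open scoped Topology

namespace Pool.Agent.N9.CC

variable {Ω : Type}

/-- `A n` is the event that `n` is chosen; adapted to `ℱ`; multiples of the primes in `Q` are not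
chosen; the conditional probability of `A (n + 1)` given `ℱ n`, times `log n`, tends almost surely to
`∏_{p ∈ Q} (1 - 1 / p)⁻¹` along the `n` such that no `p ∈ Q` divides `n + 1` -/
def SievedModel [m : MeasurableSpace Ω] (μ : Measure Ω) (ℱ : Filtration ℕ m) (A : ℕ → Set Ω)
    (Q : Finset ℕ) : Prop :=
  (∀ n, MeasurableSet[ℱ n] (A n)) ∧ (∀ n, (∃ p ∈ Q, p ∣ n) → A n = ∅) ∧
  ∀ᵐ ω ∂μ, Tendsto (fun n : ℕ => (μ[(A (n + 1)).indicator (fun _ => (1 : ℝ)) | ℱ n]) ω * Real.log n)
    (atTop ⊓ 𝓟 {n : ℕ | ∀ p ∈ Q, ¬ p ∣ n + 1}) (𝓝 (∏ p ∈ Q, (1 - 1 / (p : ℝ))⁻¹))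

open Classical in
/-- The random sieve of Hawkins: `2` is chosen, and given the decisions up to `n ≥ 2` the number
`n + 1` is chosen with probability `∏ (1 - 1 / h)`, the product over the chosen `2 ≤ h ≤ n`. -/
def HawkinsSieve [m : MeasurableSpace Ω] (μ : Measure Ω) (ℱ : Filtration ℕ m) (A : ℕ → Set Ω) : Prop :=
  (∀ n, MeasurableSet[ℱ n] (A n)) ∧ A 2 = univ ∧
  ∀ n, 2 ≤ n → μ[(A (n + 1)).indicator (fun _ => (1 : ℝ)) | ℱ n] =ᵐ[μ]
    fun ω => ∏ h ∈ Finset.Icc 2 n, if ω ∈ A h then 1 - 1 / (h : ℝ) else 1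

/-- `m, T m, ..., T^(k-1) m` are chosen, where `T y = a y + b` -/
def Chain (A : ℕ → Set Ω) (ω : Ω) (a : ℕ) (b : ℤ) (k : ℕ) (m : ℕ) : Prop :=
  ∀ i < k, ∃ v : ℕ, (v : ℤ) = (fun y : ℤ => a * y + b)^[i] m ∧ ω ∈ A v

/-- the number of `1 ≤ m ≤ x` which start a chain of length `k` -/
noncomputable def chains (A : ℕ → Set Ω) (ω : Ω) (a : ℕ) (b : ℤ) (k : ℕ) (x : ℕ) : ℕ :=
  {m : ℕ | 1 ≤ m ∧ m ≤ x ∧ Chain A ω a b k m}.ncard

/-- no obstruction at the primes of `Q`: none of them divides both `a` and `b`, and those which divide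
`a - 1` divide `b` -/
def NoObstruction (Q : Finset ℕ) (a : ℕ) (b : ℤ) : Prop :=
  ∀ p ∈ Q, ¬ ((p : ℤ) ∣ a ∧ (p : ℤ) ∣ b) ∧ ((p : ℤ) ∣ (a : ℤ) - 1 → (p : ℤ) ∣ b)

open Classical in
/-- the asymptotic probability of `m` -/
noncomputable def prob (Q : Finset ℕ) (m : ℕ) : ℝ :=
  if ∀ p ∈ Q, ¬ p ∣ m then min 1 ((∏ p ∈ Q, (1 - 1 / (p : ℝ))⁻¹) / Real.log m) else 0

/-- the expected number of chains -/
noncomputable def expected (Q : Finset ℕ) (a : ℕ) (b : ℤ) (k x : ℕ) : ℝ :=
  ∑ m ∈ Finset.Icc 1 x, ∏ i ∈ Finset.range k, prob Q ((fun y : ℤ => a * y + b)^[i] m).toNat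

open Pool.Agent.R528.RM Pool.Agent.N893.SM

/-- the map -/
def T (a : ℕ) (b : ℤ) : ℤ → ℤ := fun y => a * y + b

/-- the orbit of `1` -/
def c (a : ℕ) (b : ℤ) (i : ℕ) : ℤ := (T a b)^[i] 1

lemma T_pos {a : ℕ} {b : ℤ} (hab : 1 ≤ (a : ℤ) + b) {y : ℤ} (hy : 1 ≤ y) : 1 ≤ T a b y := by
  unfold T
  have : (a : ℤ) * 1 ≤ a * y := mul_le_mul_of_nonneg_left hy (by positivity)
  linarith

lemma orb_pos {a : ℕ} {b : ℤ} (hab : 1 ≤ (a : ℤ) + b) {y : ℤ} (hy : 1 ≤ y) (i : ℕ) : 1 ≤ (T a b)^[i] y := by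
  induction i with
  | zero => exact hy
  | succ i ih =>
    rw [Function.iterate_succ_apply']
    exact T_pos hab ih

lemma orb_eq (a : ℕ) (b : ℤ) (n : ℤ) (i : ℕ) : (T a b)^[i] (n + 1) = (a : ℤ) ^ i * n + c a b i := by
  unfold c
  induction i with
  | zero => simp
  | succ i ih =>
    rw [Function.iterate_succ_apply', Function.iterate_succ_apply', ih]
    unfold T
    rw [pow_succ]
    ring

/-- the forms -/
def fm (a : ℕ) (b : ℤ) (i : ℕ) : ℕ × ℕ := (a ^ i, (c a b i).toNat)

lemma c_pos {a : ℕ} {b : ℤ} (hab : 1 ≤ (a : ℤ) + b) (i : ℕ) : 1 ≤ c a b i := orb_pos hab le_rfl i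

lemma val_fm {a : ℕ} {b : ℤ} (hab : 1 ≤ (a : ℤ) + b) (i n : ℕ) :
    ((val (fm a b i) n : ℕ) : ℤ) = (T a b)^[i] ((n : ℤ) + 1) := by
  rw [orb_eq]
  unfold val fm
  push_cast
  rw [Int.toNat_of_nonneg (by have := c_pos hab i; omega)]

lemma fm_inj {a : ℕ} (ha : 2 ≤ a) (b : ℤ) : Function.Injective (fm a b) := by
  intro i j h
  have h1 : a ^ i = a ^ j := congrArg Prod.fst h
  exact Nat.pow_right_injective ha h1

/-- the system of the first `k` forms -/
def sys (a : ℕ) (b : ℤ) (k : ℕ) : Finset (ℕ × ℕ) := (Finset.range k).image (fm a b)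

lemma sys_card {a : ℕ} (ha : 2 ≤ a) (b : ℤ) (k : ℕ) : (sys a b k).card = k := by
  unfold sys
  rw [Finset.card_image_of_injective _ (fm_inj ha b), Finset.card_range]

lemma chain_iff (A : ℕ → Set Ω) (ω : Ω) {a : ℕ} (b : ℤ) (hab : 1 ≤ (a : ℤ) + b) (k n : ℕ) :
    Chain A ω a b k (n + 1) ↔ ∀ i < k, ω ∈ A (val (fm a b i) n) := by
  unfold Chain
  refine forall₂_congr fun i _ => ?_
  have h1 := val_fm hab i n
  push_cast
  have e : (fun y : ℤ => (a : ℤ) * y + b) = T a b := rfl
  rw [e, ← h1]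
  constructor
  · rintro ⟨v, hv, hA⟩
    have : v = val (fm a b i) n := by exact_mod_cast hv
    rwa [← this]
  · intro h
    exact ⟨_, rfl, h⟩

lemma chains_eq (A : ℕ → Set Ω) (ω : Ω) {a : ℕ} (ha : 2 ≤ a) (b : ℤ) (hab : 1 ≤ (a : ℤ) + b) (k x : ℕ) :
    (chains A ω a b k x : ℝ) = TF A (sys a b k) x ω := by
  classical
  unfold chains TF
  have h1 : ∀ n, (∏ f ∈ sys a b k, In A (val f n) ω) = if (∀ i < k, ω ∈ A (val (fm a b i) n)) then (1 : ℝ) else 0 := by
    intro n
    unfold sys
    rw [Finset.prod_image (fun i _ j _ h => fm_inj ha b h)]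
    by_cases h : ∀ i < k, ω ∈ A (val (fm a b i) n)
    · rw [if_pos h]
      refine Finset.prod_eq_one fun d hd => ?_
      unfold In
      exact indicator_of_mem (h d (Finset.mem_range.1 hd)) _
    · rw [if_neg h]
      push Not at h
      obtain ⟨d, hd, hn⟩ := h
      refine Finset.prod_eq_zero (Finset.mem_range.2 hd) ?_
      unfold In
      exact indicator_of_notMem hn _
  simp_rw [h1]
  rw [Finset.sum_boole]
  congr 1
  have e : {m : ℕ | 1 ≤ m ∧ m ≤ x ∧ Chain A ω a b k m} =
      (((Finset.range x).filter fun n => ∀ i < k, ω ∈ A (val (fm a b i) n)).image (fun n => n + 1) : Finset ℕ) := by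
    ext m
    simp only [mem_ofPred_eq, Finset.coe_image, Finset.coe_filter, Finset.mem_range, mem_image]
    constructor
    · rintro ⟨h1, h2, h3⟩
      refine ⟨m - 1, ⟨by omega, ?_⟩, by omega⟩
      rw [← chain_iff A ω b hab, show m - 1 + 1 = m by omega]
      exact h3
    · rintro ⟨r, ⟨h1, h2⟩, rfl⟩
      exact ⟨by omega, by omega, (chain_iff A ω b hab k r).2 h2⟩
  rw [e, ncard_coe_finset, Finset.card_image_of_injective _ (fun a b h => by simpa using h)]

lemma prob_eq (Q : Finset ℕ) (hQ : ∀ p ∈ Q, p.Prime) (m : ℕ) : prob Q m = rhoW (∏ p ∈ Q, p) m := by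
  unfold prob rhoW
  rw [totient_prod Q hQ]
  simp_rw [coprime_prod_iff Q hQ m]

lemma expected_eq (Q : Finset ℕ) (hQ : ∀ p ∈ Q, p.Prime) {a : ℕ} (ha : 2 ≤ a) (b : ℤ) (hab : 1 ≤ (a : ℤ) + b) (k x : ℕ) :
    expected Q a b k x = EF (rhoW (∏ p ∈ Q, p)) (sys a b k) x := by
  unfold expected EF
  have h1 : ∀ n, (∏ f ∈ sys a b k, rhoW (∏ p ∈ Q, p) (val f n)) =
      ∏ i ∈ Finset.range k, prob Q ((fun y : ℤ => a * y + b)^[i] ((n + 1 : ℕ) : ℤ)).toNat := by
    intro n
    unfold sys
    rw [Finset.prod_image (fun i _ j _ h => fm_inj ha b h)]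
    refine Finset.prod_congr rfl fun i _ => ?_
    rw [prob_eq Q hQ]
    congr 1
    have h2 := val_fm hab i n
    have e : (fun y : ℤ => (a : ℤ) * y + b) = T a b := rfl
    rw [e]
    push_cast
    rw [← h2, Int.toNat_natCast]
  simp_rw [h1]
  rw [show Finset.range x = Finset.Ico 0 x by rw [Finset.range_eq_Ico],
    Finset.sum_Ico_add' (fun m : ℕ => ∏ i ∈ Finset.range k, prob Q ((fun y : ℤ => a * y + b)^[i] (m : ℤ)).toNat) 0 x 1]
  refine Finset.sum_congr ?_ fun m _ => rfl
  ext m
  simp only [Finset.mem_Icc, Finset.mem_Ico]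
  omega

/-- admissibility -/
lemma sys_adm {Q : Finset ℕ} (hQ : ∀ p ∈ Q, p.Prime) {a : ℕ} {b : ℤ} (hab : 1 ≤ (a : ℤ) + b) (h : NoObstruction Q a b) (k : ℕ) :
    AdmF Q (sys a b k) := by
  intro p hp
  obtain ⟨h1, h2⟩ := h p hp
  have : Fact p.Prime := ⟨hQ p hp⟩
  have key : ∀ n : ℕ, (∀ i, (((T a b)^[i] ((n : ℤ) + 1) : ℤ) : ZMod p) ≠ 0) → ∀ f ∈ sys a b k, ¬ p ∣ f.1 * n + f.2 := by
    intro n hn f hf hd
    unfold sys at hf
    obtain ⟨i, _, rfl⟩ := Finset.mem_image.1 hf
    apply hn i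
    rw [← val_fm hab i n]
    have : ((val (fm a b i) n : ℕ) : ZMod p) = 0 := (ZMod.natCast_eq_zero_iff _ _).2 hd
    exact_mod_cast this
  have hT : ∀ y : ℤ, ((T a b y : ℤ) : ZMod p) = (a : ZMod p) * (y : ZMod p) + (b : ZMod p) := by
    intro y
    unfold T
    push_cast
    ring
  by_cases hb : (p : ℤ) ∣ b
  · have hb0 : (b : ZMod p) = 0 := (ZMod.intCast_zmod_eq_zero_iff_dvd b p).2 hb
    have ha0 : (a : ZMod p) ≠ 0 := by
      intro h0
      apply h1
      refine ⟨?_, hb⟩
      have := (ZMod.natCast_eq_zero_iff a p).1 h0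
      exact_mod_cast this
    refine ⟨0, key 0 fun i => ?_⟩
    have h3 : (((T a b)^[i] (((0 : ℕ) : ℤ) + 1) : ℤ) : ZMod p) = (a : ZMod p) ^ i := by
      induction i with
      | zero => simp
      | succ i ih =>
        rw [Function.iterate_succ_apply', hT, ih, hb0, add_zero, pow_succ, mul_comm]
    rw [h3]
    exact pow_ne_zero _ ha0
  · have hb0 : (b : ZMod p) ≠ 0 := fun h0 => hb ((ZMod.intCast_zmod_eq_zero_iff_dvd b p).1 h0)
    have ha1 : (1 : ZMod p) - a ≠ 0 := by
      intro h0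
      apply hb
      apply h2
      have h3 : (((a : ℤ) - 1 : ℤ) : ZMod p) = 0 := by
        push_cast
        linear_combination -h0
      exact (ZMod.intCast_zmod_eq_zero_iff_dvd _ p).1 h3
    obtain ⟨m0, hm0⟩ : ∃ m0 : ZMod p, m0 = b / (1 - a) := ⟨_, rfl⟩
    have hm00 : m0 ≠ 0 := by
      rw [hm0]
      exact div_ne_zero hb0 ha1
    have hfix : (a : ZMod p) * m0 + b = m0 := by
      rw [hm0]
      field_simp
      ring
    refine ⟨(m0 - 1).val, key _ fun i => ?_⟩
    have h3 : (((T a b)^[i] ((((m0 - 1).val : ℕ) : ℤ) + 1) : ℤ) : ZMod p) = m0 := by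
      induction i with
      | zero =>
        simp only [Function.iterate_zero, id]
        push_cast
        rw [ZMod.natCast_zmod_val]
        ring
      | succ i ih => rw [Function.iterate_succ_apply', hT, ih, hfix]
    rw [h3]
    exact hm00

/-- size of the coefficients -/
lemma c_le {a : ℕ} {b : ℤ} (hab : 1 ≤ (a : ℤ) + b) (i : ℕ) : (c a b i).toNat ≤ (a + b.natAbs) ^ i := by
  have h : c a b i ≤ ((a + b.natAbs : ℕ) : ℤ) ^ i := by
    induction i with
    | zero => simp [c]
    | succ i ih =>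
      have h1 := c_pos hab i
      have h2 : c a b (i + 1) = a * c a b i + b := by
        unfold c
        rw [Function.iterate_succ_apply']
        rfl
      rw [h2, pow_succ]
      have h3 : b ≤ (b.natAbs : ℤ) := by omega
      have h4 : (0 : ℤ) ≤ (b.natAbs : ℤ) := by positivity
      push_cast at ih ⊢
      calc (a : ℤ) * c a b i + b ≤ (a + |b|) * c a b i := by
            have : b ≤ |b| := le_abs_self b
            nlinarith [abs_nonneg b]
        _ ≤ (a + |b|) * (a + |b|) ^ i := mul_le_mul_of_nonneg_left ih (by positivity)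
        _ = _ := by ring
  have h1 := c_pos hab i
  zify
  rw [Int.toNat_of_nonneg (by omega)]
  push_cast at h
  exact h

lemma log_bounds {x : ℕ} (hx : 2 ≤ x) : ((Nat.log 2 x : ℕ) : ℝ) * Real.log 2 ≤ Real.log x ∧ x < 2 ^ (Nat.log 2 x + 1) := by
  constructor
  · have h1 : 2 ^ Nat.log 2 x ≤ x := Nat.pow_log_le_self 2 (by omega)
    have h2 : ((2 : ℝ)) ^ Nat.log 2 x ≤ x := by exact_mod_cast h1
    have h3 := Real.log_le_log (by positivity) h2
    rwa [Real.log_pow] at h3
  · exact Nat.lt_pow_succ_log_self (by norm_num) x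

lemma tendsto_log2 : Tendsto (fun x : ℕ => Nat.log 2 x) atTop atTop := by
  rw [tendsto_atTop_atTop]
  intro b
  refine ⟨2 ^ b, fun x hx => ?_⟩
  exact (Nat.le_log_iff_pow_le (by norm_num) (by have := Nat.two_pow_pos b; omega)).2 hx

lemma size_kj {δ : ℝ} (hδ : 0 < δ) : ∀ᶠ x : ℕ in atTop,
    (kj δ (Nat.log 2 x) : ℝ) ≤ (1 + δ) * (Real.log x / Real.log (Real.log x)) := by
  filter_upwards [tendsto_log2.eventually (tendsto_u.eventually_ge_atTop (Real.exp 1)), eventually_ge_atTop 2] with x h1 h2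
  obtain ⟨h3, _⟩ := log_bounds h2
  set u : ℝ := ((Nat.log 2 x : ℕ) : ℝ) * Real.log 2
  have he : 1 < Real.exp 1 := Real.one_lt_exp_iff.2 one_pos
  have hu : 1 ≤ Real.log u := by
    rw [Real.le_log_iff_exp_le (by linarith)]
    exact h1
  have hL : 1 ≤ Real.log (Real.log x) := by
    rw [Real.le_log_iff_exp_le (by linarith)]
    exact h1.trans h3
  have h4 := Real.log_div_self_antitoneOn (show u ∈ {x | Real.exp 1 ≤ x} from h1)
    (show Real.log x ∈ {x | Real.exp 1 ≤ x} from h1.trans h3) h3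
  have h5 : u / Real.log u ≤ Real.log x / Real.log (Real.log x) := by
    rw [div_le_div_iff₀ (by linarith) (by linarith)] at h4 ⊢
    linarith
  have hnn : 0 ≤ (1 + δ) * (u / Real.log u) := by
    have : 0 ≤ u / Real.log u := div_nonneg (by linarith) (by linarith)
    nlinarith
  unfold kj
  refine (Nat.floor_le hnn).trans ?_
  exact mul_le_mul_of_nonneg_left h5 (by linarith)

/-- the chains which start at `n + 2` -/
def F (a : ℕ) (b : ℤ) (i n : ℕ) : ℕ := ((T a b)^[i] ((n : ℤ) + 2)).toNat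

lemma orb_grow {a : ℕ} (ha : 2 ≤ a) {b : ℤ} (hab : 1 ≤ (a : ℤ) + b) (n i : ℕ) :
    (2 : ℤ) ^ i ≤ (T a b)^[i] ((n : ℤ) + 2) - 1 ∧ (T a b)^[i] ((n : ℤ) + 2) < (T a b)^[i + 1] ((n : ℤ) + 2) := by
  have ha' : (2 : ℤ) ≤ a := by exact_mod_cast ha
  have h1 : (2 : ℤ) ^ i ≤ (T a b)^[i] ((n : ℤ) + 2) - 1 := by
    induction i with
    | zero =>
      simp only [pow_zero, Function.iterate_zero, id]
      have : (0 : ℤ) ≤ n := by positivity
      linarith
    | succ i ih =>
      rw [Function.iterate_succ_apply', pow_succ]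
      set y := (T a b)^[i] ((n : ℤ) + 2)
      unfold T
      have h2 : (0 : ℤ) < 2 ^ i := by positivity
      nlinarith
  refine ⟨h1, ?_⟩
  rw [Function.iterate_succ_apply']
  set y := (T a b)^[i] ((n : ℤ) + 2)
  unfold T
  have h2 : (0 : ℤ) < 2 ^ i := by positivity
  nlinarith

lemma F_low {a : ℕ} (ha : 2 ≤ a) {b : ℤ} (hab : 1 ≤ (a : ℤ) + b) (n i : ℕ) : 2 ^ i ≤ F a b i n := by
  have h1 := (orb_grow ha hab n i).1
  have h2 : (0 : ℤ) < 2 ^ i := by positivity
  unfold F
  zify
  rw [Int.toNat_of_nonneg (by linarith)]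
  linarith

lemma F_inj {a : ℕ} (ha : 2 ≤ a) {b : ℤ} (hab : 1 ≤ (a : ℤ) + b) (n i i' : ℕ) (h : F a b i n = F a b i' n) : i = i' := by
  have hmono : StrictMono (fun i => F a b i n) := by
    refine strictMono_nat_of_lt_succ fun i => ?_
    have h1 := orb_grow ha hab n i
    have h2 : (0 : ℤ) < 2 ^ i := by positivity
    unfold F
    have h3 : (T a b)^[i] ((n : ℤ) + 2) < (T a b)^[i + 1] ((n : ℤ) + 2) := h1.2
    omega
  exact hmono.injective h

end Pool.Agent.N9.CC

open Pool.Agent.N9.CC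

/-- Hawkins' sieve is a sieved model with `Q = ∅`; and in every sieved model, almost surely, for all maps
`T y = a y + b`, `a ≥ 2`, `b ≥ 1 - a`, without obstruction at `Q`: (1) for all `δ, ε ∈ (0, 1)`, for all large `x` and
all `k ≤ (1 - δ) log x / log log x` the number `N` of the `m ≤ x` such that `m, T m, ..., T^(k-1) m` are chosen is
between `(1 - ε) ^ k E` and `(1 + ε) ^ k E`, `E` the expected number, and `N ≥ x ^ (δ / 2)`; (2) for every
`δ > 0`, for all large `x` and all `k ≥ (1 + δ) log x / log log x` there is no `2 ≤ m ≤ x` such that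
`m, T m, ..., T^(k-1) m` are chosen. -/
theorem Pool.Agent.N9.CC.longest
    {Ω : Type} [m : MeasurableSpace Ω] (μ : Measure Ω) [IsProbabilityMeasure μ]
    (ℱ : Filtration ℕ m) (A : ℕ → Set Ω) :
    (HawkinsSieve μ ℱ A → SievedModel μ ℱ A ∅) ∧
    (∀ Q : Finset ℕ, (∀ p ∈ Q, p.Prime) → SievedModel μ ℱ A Q → ∀ᵐ ω ∂μ,
      ∀ (a : ℕ) (b : ℤ), 2 ≤ a → 1 ≤ (a : ℤ) + b → NoObstruction Q a b →
      (∀ δ ε : ℝ, 0 < δ → δ < 1 → 0 < ε → ε < 1 → ∀ᶠ x : ℕ in atTop, ∀ k : ℕ,
        (k : ℝ) ≤ (1 - δ) * (Real.log x / Real.log (Real.log x)) →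
        (1 - ε) ^ k * expected Q a b k x ≤ chains A ω a b k x ∧
        chains A ω a b k x ≤ (1 + ε) ^ k * expected Q a b k x ∧
        (x : ℝ) ^ (δ / 2) ≤ chains A ω a b k x) ∧
      (∀ δ : ℝ, 0 < δ → ∀ᶠ x : ℕ in atTop, ∀ k : ℕ,
        (1 + δ) * (Real.log x / Real.log (Real.log x)) ≤ k →
        ∀ m : ℕ, 2 ≤ m → m ≤ x → ¬ Chain A ω a b k m)) := by
  classical
  constructor
  · rintro ⟨h1, h2, h3⟩
    have hs : Pool.Agent.N740.HK.HS μ ℱ A := ⟨h1, h2, fun n hn => by
      filter_upwards [h3 n hn] with ω hω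
      have e : (∏ h ∈ Finset.Icc 2 n, if ω ∈ A h then 1 - 1 / (h : ℝ) else 1) =
          (Pool.Agent.N740.HK.Y A n ω)⁻¹ := by
        unfold Pool.Agent.N740.HK.Y
        rw [← Finset.prod_inv_distrib]
        refine Finset.prod_congr rfl fun h hh => ?_
        have h2 : (2 : ℝ) ≤ h := by exact_mod_cast (Finset.mem_Icc.1 hh).1
        by_cases hA : ω ∈ A h
        · rw [if_pos hA, if_pos hA, inv_div]
          field_simp
        · rw [if_neg hA, if_neg hA, inv_one]
      rw [← e]
      exact hω⟩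
    refine ⟨h1, fun n hn => ?_, ?_⟩
    · obtain ⟨p, hp, _⟩ := hn
      exact absurd hp (Finset.notMem_empty p)
    · filter_upwards [Pool.Agent.N740.HK.hawk_dens hs] with ω hω
      rw [Finset.prod_empty]
      exact hω.mono_left inf_le_left
  · rintro Q hQ ⟨hA, hcop, hd⟩
    have hnone : ∀ᵐ ω ∂μ, ∀ (q : ℕ) (a : ℕ) (b : ℤ), 2 ≤ a → 1 ≤ (a : ℤ) + b →
        ∀ᶠ j : ℕ in atTop, ∀ n < 2 ^ (j + 1), ∃ i < Pool.Agent.N893.SM.kj (1 / ((q : ℝ) + 1)) j, ω ∉ A (F a b i n) := by
      rw [ae_all_iff]; intro q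
      rw [ae_all_iff]; intro a
      rw [ae_all_iff]; intro b
      by_cases ha : 2 ≤ a
      · by_cases hab : 1 ≤ (a : ℤ) + b
        · filter_upwards [Pool.Agent.N893.SM.noneC (μ := μ) hA Q hQ hcop hd
            (show (0 : ℝ) < 1 / ((q : ℝ) + 1) by positivity) (F a b) (fun n i => F_low ha hab n i)
            (fun n i i' => F_inj ha hab n i i')] with ω hω _ _
          exact hω
        · exact Eventually.of_forall fun ω _ h => absurd h hab
      · exact Eventually.of_forall fun ω h => absurd h ha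
    filter_upwards [Pool.Agent.N893.SM.growF (μ := μ) hA Q hQ hcop hd, hnone] with ω hω hω2 a b ha hab hob
    constructor
    · intro δ ε hδ0 hδ1 hε0 hε1
      -- the size of the coefficients
      set G : ℕ := a + b.natAbs with hG
      have hG2 : 2 ≤ G := by omega
      set C : ℕ := ⌈Real.log G⌉₊ + 1 with hC
      have hLL : Tendsto (fun x : ℕ => Real.log (Real.log x)) atTop atTop :=
        Real.tendsto_log_atTop.comp Pool.Agent.R528.RM.tendsto_log
      filter_upwards [hω C (by omega) δ ε hδ0 hδ1 hε0 hε1, hLL.eventually_ge_atTop (1 : ℝ), eventually_ge_atTop 3]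
        with x hx h6 h3 k hk
      have hx' : (3 : ℝ) ≤ x := by exact_mod_cast h3
      have hL : 0 < Real.log (x : ℝ) := Real.log_pos (by linarith)
      have hG0 : (0 : ℝ) < G := by
        have : 0 < G := by omega
        exact_mod_cast this
      have hlogG : 0 ≤ Real.log (G : ℝ) := Real.log_natCast_nonneg G
      have hkL : (k : ℝ) ≤ Real.log x := by
        refine hk.trans ?_
        have : Real.log (x : ℝ) / Real.log (Real.log x) ≤ Real.log x := div_le_self hL.le h6
        have h0 : 0 ≤ Real.log (x : ℝ) / Real.log (Real.log x) := div_nonneg hL.le (by linarith)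
        nlinarith
      have hpow : ∀ i < k, G ^ i ≤ x ^ C := by
        intro i hi
        have h1 : ((G : ℝ)) ^ i ≤ (x : ℝ) ^ C := by
          have hik : (i : ℝ) ≤ Real.log x := by
            have : (i : ℝ) ≤ k := by exact_mod_cast hi.le
            linarith
          have e1 : ((G : ℝ)) ^ i = Real.exp (i * Real.log G) := by
            rw [Real.exp_nat_mul, Real.exp_log hG0]
          have e2 : (x : ℝ) ^ C = Real.exp (C * Real.log x) := by
            rw [Real.exp_nat_mul, Real.exp_log (by linarith)]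
          rw [e1, e2]
          apply Real.exp_le_exp.2
          have h2 : Real.log (G : ℝ) ≤ C := by
            have := Nat.le_ceil (Real.log (G : ℝ))
            rw [hC]
            push_cast
            linarith
          calc (i : ℝ) * Real.log G ≤ Real.log x * Real.log G := mul_le_mul_of_nonneg_right hik hlogG
            _ ≤ Real.log x * C := mul_le_mul_of_nonneg_left h2 hL.le
            _ = _ := mul_comm _ _
        exact_mod_cast h1
      have hsub : sys a b k ⊆ Finset.Icc 1 (x ^ C) ×ˢ Finset.Icc 1 (x ^ C) := by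
        intro f hf
        unfold sys at hf
        obtain ⟨i, hi, rfl⟩ := Finset.mem_image.1 hf
        have hi' := Finset.mem_range.1 hi
        rw [Finset.mem_product, Finset.mem_Icc, Finset.mem_Icc]
        have h1 := hpow i hi'
        have h2 : a ^ i ≤ G ^ i := Nat.pow_le_pow_left (by omega) i
        have h4 : 1 ≤ a ^ i := Nat.one_le_pow _ _ (by omega)
        have h5 := c_le hab i
        have h7 := c_pos hab i
        rw [← hG] at h5
        unfold fm
        simp only
        omega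
      have h := hx (sys a b k) hsub (sys_adm hQ hab hob k) (by rw [sys_card ha]; exact hk)
      rw [← expected_eq Q hQ ha b hab, ← chains_eq A ω ha b hab, sys_card ha] at h
      exact h
    · intro δ hδ
      obtain ⟨q, hq⟩ := exists_nat_one_div_lt hδ
      have hq0 : (0 : ℝ) < 1 / ((q : ℝ) + 1) := by positivity
      have hLL : Tendsto (fun x : ℕ => Real.log (Real.log x)) atTop atTop :=
        Real.tendsto_log_atTop.comp Pool.Agent.R528.RM.tendsto_log
      filter_upwards [tendsto_log2.eventually (hω2 q a b ha hab), size_kj hq0, eventually_ge_atTop 3,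
        hLL.eventually_ge_atTop (1 : ℝ)] with x h1 h2 h3 h6 k hk m hm2 hmx hch
      have hx' : (3 : ℝ) ≤ x := by exact_mod_cast h3
      have hL : 0 < Real.log (x : ℝ) := Real.log_pos (by linarith)
      obtain ⟨_, h4⟩ := log_bounds (show 2 ≤ x by omega)
      obtain ⟨i, hi, hn⟩ := h1 (m - 2) (by omega)
      have hik : i < k := by
        have g0 : 0 ≤ Real.log (x : ℝ) / Real.log (Real.log x) := div_nonneg hL.le (by linarith)
        have g1 : (Pool.Agent.N893.SM.kj (1 / ((q : ℝ) + 1)) (Nat.log 2 x) : ℝ) ≤ k := by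
          refine h2.trans (le_trans ?_ hk)
          exact mul_le_mul_of_nonneg_right (by linarith) g0
        have g2 : Pool.Agent.N893.SM.kj (1 / ((q : ℝ) + 1)) (Nat.log 2 x) ≤ k := by exact_mod_cast g1
        omega
      obtain ⟨v, hv, hvA⟩ := hch i hik
      apply hn
      have e : F a b i (m - 2) = v := by
        unfold F
        have e1 : (((m - 2 : ℕ) : ℤ) + 2) = (m : ℤ) := by omega
        have e2 : (fun y : ℤ => (a : ℤ) * y + b) = T a b := rfl
        rw [e1, ← e2, ← hv, Int.toNat_natCast]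
      rw [e]
      exact hvA
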