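import Mathlib
import Pool.Agent.N9.CC.Long
import Pool.Agent.N9.AD.Poly

set_option autoImplicit false
set_option linter.unusedSectionVars false

/-! # One more member of a chain, uniformly in the length -/

open MeasureTheory Filter Set
open scoped ENNReal Topology

namespace Pool.Agent.N9.CC

open Pool.Agent.R528.RM Pool.Agent.N893.SM Pool.Agent.N9.AD

/-- the `i`-th member of the chain of `n + 1` -/
def Vc (a : ℕ) (b : ℤ) (i n : ℕ) : ℕ := val (fm a b i) n

lemma Vc_eq (a : ℕ) (b : ℤ) (i n : ℕ) : Vc a b i n = a ^ i * n + (c a b i).toNat := rfl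

lemma Vc_cast {a : ℕ} {b : ℤ} (hab : 1 ≤ (a : ℤ) + b) (i n : ℕ) :
    ((Vc a b i n : ℕ) : ℤ) = (T a b)^[i] ((n : ℤ) + 1) := val_fm hab i n

lemma Vc_mono {a : ℕ} (ha : 2 ≤ a) (b : ℤ) (i : ℕ) : ∀ m n, m < n → Vc a b i m < Vc a b i n := by
  intro m n h
  rw [Vc_eq, Vc_eq]
  have h1 : 0 < a ^ i := by positivity
  have h2 : a ^ i * m < a ^ i * n := Nat.mul_lt_mul_of_pos_left h h1
  omega

lemma Vc_zero (a : ℕ) (b : ℤ) (n : ℕ) : Vc a b 0 n = n + 1 := by
  rw [Vc_eq]
  unfold c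
  simp

lemma Vc_succ {a : ℕ} {b : ℤ} (hab : 1 ≤ (a : ℤ) + b) (i n : ℕ) :
    ((Vc a b (i + 1) n : ℕ) : ℤ) = a * (Vc a b i n : ℕ) + b := by
  rw [Vc_cast hab, Vc_cast hab, Function.iterate_succ_apply']
  rfl

lemma Vc_step {a : ℕ} (ha : 2 ≤ a) {b : ℤ} (hab : 1 ≤ (a : ℤ) + b) (i n : ℕ) (hn : 2 ≤ Vc a b i n) :
    Vc a b i n < Vc a b (i + 1) n := by
  have h1 := Vc_succ hab i n
  have h2 : ((Vc a b i n : ℕ) : ℤ) < (Vc a b (i + 1) n : ℕ) := by
    rw [h1]
    have h3 : (2 : ℤ) ≤ (Vc a b i n : ℕ) := by exact_mod_cast hn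
    have h4 : (2 : ℤ) ≤ a := by exact_mod_cast ha
    nlinarith
  exact_mod_cast h2

lemma Vc_ge {a : ℕ} (ha : 2 ≤ a) {b : ℤ} (hab : 1 ≤ (a : ℤ) + b) (n : ℕ) (hn : 1 ≤ n) (i : ℕ) :
    n + 1 ≤ Vc a b i n := by
  induction i with
  | zero => rw [Vc_zero]
  | succ i ih =>
    have := Vc_step ha hab i n (by omega)
    omega

lemma Vc_lt {a : ℕ} (ha : 2 ≤ a) {b : ℤ} (hab : 1 ≤ (a : ℤ) + b) (n : ℕ) (hn : 1 ≤ n) (i j : ℕ)
    (hij : i < j) : Vc a b i n < Vc a b j n := by
  induction j, hij using Nat.le_induction with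
  | base => exact Vc_step ha hab i n (by have := Vc_ge ha hab n hn i; omega)
  | succ j hj ih =>
    have := Vc_step ha hab j n (by have := Vc_ge ha hab n hn j; omega)
    omega

/-- the chains of length `k` -/
noncomputable def uc {Ω : Type} (A : ℕ → Set Ω) (a : ℕ) (b : ℤ) (k n : ℕ) (ω : Ω) : ℝ :=
  ∏ i ∈ Finset.range k, In A (Vc a b i n) ω

lemma uc_bounds {Ω : Type} (A : ℕ → Set Ω) (a : ℕ) (b : ℤ) (k n : ℕ) (ω : Ω) :
    0 ≤ uc A a b k n ω ∧ uc A a b k n ω ≤ 1 :=
  ⟨Finset.prod_nonneg fun _ _ => In_nonneg _ _,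
    Finset.prod_le_one (fun _ _ => In_nonneg _ _) (fun _ _ => In_le _ _)⟩

variable {Ω : Type} {m0 : MeasurableSpace Ω} {μ : Measure Ω} [IsProbabilityMeasure μ]
  {ℱ : Filtration ℕ m0} {A : ℕ → Set Ω}

lemma sqrt_enc (x k : ℕ) (hk : k ≤ x) : (x * x + k) - (Nat.sqrt (x * x + k)) * Nat.sqrt (x * x + k) = k := by
  have h1 : Nat.sqrt (x * x + k) = x := Nat.sqrt_add_eq x (by omega)
  rw [h1]
  omega

/-- **one more member** -/
theorem ch_step (hA : ∀ n, MeasurableSet[ℱ n] (A n)) {W : ℕ}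
    (hd : ∀ᵐ ω ∂μ, ∀ ε : ℝ, 0 < ε → ∀ᶠ n : ℕ in atTop,
      |dens μ ℱ A n ω - rhoW W (n + 1)| ≤ ε * rhoW W (n + 1))
    {a : ℕ} (ha : 2 ≤ a) {b : ℤ} (hab : 1 ≤ (a : ℤ) + b) :
    ∀ᵐ ω ∂μ, ∃ C : ℝ, 0 < C ∧ ∀ᶠ x : ℕ in atTop, ∀ k : ℕ, (k : ℝ) ≤ Real.log x →
      ∑ n ∈ Finset.Ico 1 x, uc A a b (k + 1) n ω ≤
        2 * ∑ n ∈ Finset.Ico 1 x, uc A a b k n ω * rhoW W (Vc a b k n) + C * Real.log x := by
  classical
  have hV : ∀ k, ∀ m n, 1 ≤ m → m < n → Vc a b k m < Vc a b k n := fun k m n _ h => Vc_mono ha b k m n h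
  set kk : ℕ → ℕ := fun M => M - (Nat.sqrt M) * Nat.sqrt M with hkk
  set w : ℕ → ℕ → Ω → ℝ := fun M v ω => ∑ n ∈ Finset.Ico 1 (v + 1 + 1),
    if Vc a b (kk M) n = v then uc A a b (kk M) n ω else 0 with hw
  have hw1 : ∀ M v ω, 0 ≤ w M v ω ∧ w M v ω ≤ 1 := by
    intro M v ω
    constructor
    · exact Finset.sum_nonneg fun s _ => by
        split_ifs
        · exact (uc_bounds A a b _ s ω).1
        · exact le_rfl
    · by_cases h : ∃ t ∈ Finset.Ico 1 (v + 1 + 1), Vc a b (kk M) t = v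
      · obtain ⟨t, ht, htv⟩ := h
        have ht' := Finset.mem_Ico.1 ht
        have e1 : w M v ω = uc A a b (kk M) t ω := by
          simp only [hw]
          rw [Finset.sum_eq_single t]
          · rw [if_pos htv]
          · intro s hs hst
            have hs' := Finset.mem_Ico.1 hs
            rw [if_neg]
            intro h1
            rcases Nat.lt_trichotomy s t with h2 | h2 | h2
            · have := hV (kk M) s t hs'.1 h2
              omega
            · exact hst h2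
            · have := hV (kk M) t s ht'.1 h2
              omega
          · intro h1
            exact absurd ht h1
        rw [e1]
        exact (uc_bounds A a b _ t ω).2
      · have e1 : w M v ω = 0 := by
          simp only [hw]
          apply Finset.sum_eq_zero
          intro s hs
          rw [if_neg]
          intro h1
          exact h ⟨s, hs, h1⟩
        rw [e1]
        exact zero_le_one
  have hmeas : ∀ M v : ℕ, 1 ≤ v → StronglyMeasurable[ℱ (v - 1)] (w M v) := by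
    intro M v _
    have e1 : w M v = fun ω => ∑ n ∈ Finset.Ico 1 (v + 1 + 1),
      (if Vc a b (kk M) n = v then uc A a b (kk M) n ω else 0) := rfl
    rw [e1]
    refine Finset.stronglyMeasurable_fun_sum _ fun s hs => ?_
    have hs' := Finset.mem_Ico.1 hs
    by_cases h : Vc a b (kk M) s = v
    · simp only [h, if_true]
      unfold uc
      refine Finset.stronglyMeasurable_fun_prod _ fun i hi => ?_
      have h1 := Vc_lt ha hab s hs'.1 i (kk M) (Finset.mem_range.1 hi)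
      exact (@stronglyMeasurable_const _ _ (ℱ (v - 1)) _ _).indicator
        (ℱ.mono (by omega) _ (hA (Vc a b i s)))
    · simp only [h, if_false]
      exact @stronglyMeasurable_const _ _ (ℱ (v - 1)) _ _
  set G : ℕ := a + b.natAbs with hG
  have hG2 : 2 ≤ G := by omega
  set C₀ : ℕ := ⌈Real.log G⌉₊ + 1 with hC₀
  filter_upwards [eng (μ := μ) hA (rhoW W) (fun n => ⟨rhoW_nonneg W n, rhoW_le W n⟩) hd (C₀ + 2)
    w hmeas hw1] with ω hω
  obtain ⟨C, hC0, hC⟩ := hω 1 one_pos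
  refine ⟨3 * C, by positivity, ?_⟩
  obtain ⟨M₀, hM₀⟩ := eventually_atTop.1 hC
  filter_upwards [eventually_ge_atTop M₀, eventually_ge_atTop 3] with x hx1 hx3 k hk
  have hxR : (3 : ℝ) ≤ x := by exact_mod_cast hx3
  have hlog : 0 < Real.log (x : ℝ) := Real.log_pos (by linarith)
  have hkx : k ≤ x := by
    have : (k : ℝ) ≤ x := hk.trans (Real.log_le_self (by linarith))
    exact_mod_cast this
  -- the size of the values
  have hG0 : (0 : ℝ) < G := by
    have : 0 < G := by omega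
    exact_mod_cast this
  have hlogG : 0 ≤ Real.log (G : ℝ) := Real.log_natCast_nonneg G
  have hpow : G ^ k ≤ x ^ C₀ := by
    have h1 : ((G : ℝ)) ^ k ≤ (x : ℝ) ^ C₀ := by
      have e1 : ((G : ℝ)) ^ k = Real.exp (k * Real.log G) := by
        rw [Real.exp_nat_mul, Real.exp_log hG0]
      have e2 : (x : ℝ) ^ C₀ = Real.exp (C₀ * Real.log x) := by
        rw [Real.exp_nat_mul, Real.exp_log (by linarith)]
      rw [e1, e2]
      apply Real.exp_le_exp.2
      have h2 : Real.log (G : ℝ) ≤ C₀ := by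
        have := Nat.le_ceil (Real.log (G : ℝ))
        rw [hC₀]
        push_cast
        linarith
      calc (k : ℝ) * Real.log G ≤ Real.log x * Real.log G := mul_le_mul_of_nonneg_right hk hlogG
        _ ≤ Real.log x * C₀ := mul_le_mul_of_nonneg_left h2 hlog.le
        _ = _ := mul_comm _ _
    exact_mod_cast h1
  have hVx : Vc a b k x ≤ (x * x + k) ^ (C₀ + 2) := by
    have e1 : Vc a b k x ≤ G ^ k * (x + 1) := by
      rw [Vc_eq]
      have h2 : a ^ k ≤ G ^ k := Nat.pow_le_pow_left (by omega) k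
      have h3 : (c a b k).toNat ≤ G ^ k := c_le hab k
      nlinarith
    have e2 : G ^ k * (x + 1) ≤ x ^ C₀ * x ^ 2 := Nat.mul_le_mul hpow (by nlinarith)
    have e3 : x ^ C₀ * x ^ 2 = x ^ (C₀ + 2) := (pow_add x C₀ 2).symm
    have e4 : x ^ (C₀ + 2) ≤ (x * x + k) ^ (C₀ + 2) := Nat.pow_le_pow_left (by nlinarith) _
    omega
  have hk' : kk (x * x + k) = k := sqrt_enc x k hkx
  have ha1 : 1 ≤ Vc a b k 1 := by
    have := Vc_ge ha hab 1 le_rfl k
    omega
  have hMx : M₀ ≤ x * x + k := by nlinarith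
  have h1 := hM₀ (x * x + k) hMx (Vc a b k 1) (Vc a b k x) ha1 hVx
  have e0 : 1 + (x - 1) = x := by omega
  have e1 : ∑ v ∈ Finset.Ico (Vc a b k 1) (Vc a b k x), w (x * x + k) v ω * In A v ω =
      ∑ n ∈ Finset.Ico 1 x, uc A a b k n ω * In A (Vc a b k n) ω := by
    have := fiber_inc (hV k) (fun n => uc A a b k n ω) (fun v => In A v ω) 1 (x - 1) le_rfl
    rw [e0] at this
    simp only [hw, hk']
    exact this
  have e2 : ∑ v ∈ Finset.Ico (Vc a b k 1) (Vc a b k x), w (x * x + k) v ω * rhoW W v =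
      ∑ n ∈ Finset.Ico 1 x, uc A a b k n ω * rhoW W (Vc a b k n) := by
    have := fiber_inc (hV k) (fun n => uc A a b k n ω) (fun v => rhoW W v) 1 (x - 1) le_rfl
    rw [e0] at this
    simp only [hw, hk']
    exact this
  rw [e1, e2] at h1
  have e3 : ∑ n ∈ Finset.Ico 1 x, uc A a b (k + 1) n ω =
      ∑ n ∈ Finset.Ico 1 x, uc A a b k n ω * In A (Vc a b k n) ω := by
    refine Finset.sum_congr rfl fun n _ => ?_
    unfold uc
    rw [Finset.prod_range_succ]
  have hlM : Real.log ((x * x + k : ℕ) : ℝ) ≤ 3 * Real.log x := by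
    have h3 : ((x * x + k : ℕ) : ℝ) ≤ (x : ℝ) ^ 3 := by
      have : x * x + k ≤ x ^ 3 := by
        have : x ^ 3 = x * x * x := by ring
        nlinarith
      exact_mod_cast this
    have h4 : (0 : ℝ) < ((x * x + k : ℕ) : ℝ) := by
      have : 0 < x * x + k := by nlinarith
      exact_mod_cast this
    calc Real.log ((x * x + k : ℕ) : ℝ) ≤ Real.log ((x : ℝ) ^ 3) := Real.log_le_log h4 h3
      _ = 3 * Real.log x := by rw [Real.log_pow]; norm_num
  have h5 := (abs_le.1 h1).2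
  rw [e3]
  have h6 : C * Real.log ((x * x + k : ℕ) : ℝ) ≤ 3 * C * Real.log x := by
    calc C * Real.log ((x * x + k : ℕ) : ℝ) ≤ C * (3 * Real.log x) :=
          mul_le_mul_of_nonneg_left hlM hC0.le
      _ = _ := by ring
  linarith

/-- the number of chains is a sum -/
lemma chains_sum (A : ℕ → Set Ω) (ω : Ω) {a : ℕ} (ha : 2 ≤ a) (b : ℤ) (hab : 1 ≤ (a : ℤ) + b) (k x : ℕ) :
    (chains A ω a b k x : ℝ) = ∑ n ∈ Finset.range x, uc A a b k n ω := by
  rw [chains_eq A ω ha b hab]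
  unfold TF uc sys
  refine Finset.sum_congr rfl fun n _ => ?_
  rw [Finset.prod_image (fun i _ j _ h => fm_inj ha b h)]
  rfl

/-- **few chains can be extended** -/
theorem extend (hA : ∀ n, MeasurableSet[ℱ n] (A n)) {W : ℕ}
    (hd : ∀ᵐ ω ∂μ, ∀ ε : ℝ, 0 < ε → ∀ᶠ n : ℕ in atTop,
      |dens μ ℱ A n ω - rhoW W (n + 1)| ≤ ε * rhoW W (n + 1))
    {a : ℕ} (ha : 2 ≤ a) {b : ℤ} (hab : 1 ≤ (a : ℤ) + b) :
    ∀ᵐ ω ∂μ, ∀ δ : ℝ, 0 < δ → ∃ K : ℝ, 0 < K ∧ ∀ᶠ x : ℕ in atTop, ∀ k : ℕ, (k : ℝ) ≤ Real.log x →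
      (x : ℝ) ^ (δ / 2) ≤ chains A ω a b k x →
      (chains A ω a b (k + 1) x : ℝ) ≤ K / Real.log x * chains A ω a b k x := by
  set cc : ℝ := (W : ℝ) / Nat.totient W with hcc
  have hcc0 : 0 ≤ cc := by positivity
  filter_upwards [ch_step (μ := μ) hA hd ha hab] with ω hω δ hδ
  obtain ⟨C, hC0, hC⟩ := hω
  refine ⟨8 * cc / δ + 1, by positivity, ?_⟩
  have h2 := (isLittleO_log_rpow_atTop (show (0 : ℝ) < δ / 4 by positivity)).bound
    (show (0 : ℝ) < 1 / (C + 7) by positivity)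
  filter_upwards [hC, eventually_ge_atTop 3, tendsto_natCast_atTop_atTop.eventually h2] with x h1 hx3 h3 k hk hN
  have hxR : (3 : ℝ) ≤ x := by exact_mod_cast hx3
  have hlog : 1 ≤ Real.log (x : ℝ) := by
    have h4 : Real.exp 1 ≤ x := by
      have := Real.exp_one_lt_d9
      linarith
    calc (1 : ℝ) = Real.log (Real.exp 1) := (Real.log_exp 1).symm
      _ ≤ Real.log x := Real.log_le_log (Real.exp_pos 1) h4
  have hlog0 : 0 < Real.log (x : ℝ) := by linarith
  set y : ℝ := (x : ℝ) ^ (δ / 4) with hy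
  have hy0 : 0 ≤ y := Real.rpow_nonneg (by linarith) _
  have hyy : y * y = (x : ℝ) ^ (δ / 2) := by
    rw [hy, ← Real.rpow_add (by linarith)]
    congr 1
    ring
  rw [Real.norm_eq_abs, Real.norm_eq_abs, abs_of_pos hlog0, abs_of_nonneg hy0, one_div,
    ← div_eq_inv_mul, le_div_iff₀ (by positivity)] at h3
  have hy1 : 1 ≤ y := by nlinarith
  have h5 := h1 k hk
  -- the sum with the probabilities
  have h6 : ∑ n ∈ Finset.Ico 1 x, uc A a b k n ω * rhoW W (Vc a b k n) ≤
      (y + 1) + 4 * cc / (δ * Real.log x) * ∑ n ∈ Finset.Ico 1 x, uc A a b k n ω := by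
    have hpt : ∀ n ∈ Finset.Ico 1 x, uc A a b k n ω * rhoW W (Vc a b k n) ≤
        (if n < ⌈y⌉₊ then (1 : ℝ) else 0) + 4 * cc / (δ * Real.log x) * uc A a b k n ω := by
      intro n hn
      have hn' := Finset.mem_Ico.1 hn
      have hu := uc_bounds A a b k n ω
      have hq : 0 ≤ 4 * cc / (δ * Real.log x) * uc A a b k n ω := mul_nonneg (by positivity) hu.1
      by_cases h7 : n < ⌈y⌉₊
      · rw [if_pos h7]
        have : uc A a b k n ω * rhoW W (Vc a b k n) ≤ 1 :=
          mul_le_one₀ hu.2 (rhoW_nonneg _ _) (rhoW_le _ _)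
        linarith
      · rw [if_neg h7, zero_add, mul_comm]
        apply mul_le_mul_of_nonneg_right _ hu.1
        rw [not_lt] at h7
        have h8 : y ≤ n := (Nat.le_ceil y).trans (by exact_mod_cast h7)
        have h9 : y ≤ (Vc a b k n : ℕ) := by
          have := Vc_ge ha hab n hn'.1 k
          have h10 : (n : ℝ) ≤ (Vc a b k n : ℕ) := by
            have : n ≤ Vc a b k n := by omega
            exact_mod_cast this
          linarith
        have h10 : δ / 4 * Real.log x ≤ Real.log (Vc a b k n : ℕ) := by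
          have e1 : Real.log y = δ / 4 * Real.log x := by
            rw [hy, Real.log_rpow (by linarith)]
          rw [← e1]
          exact Real.log_le_log (by linarith) h9
        rw [rhoW_eq]
        split_ifs
        · unfold bb
          calc min 1 ((W : ℝ) / Nat.totient W / Real.log (Vc a b k n : ℕ)) ≤
                cc / Real.log (Vc a b k n : ℕ) := min_le_right _ _
            _ ≤ cc / (δ / 4 * Real.log x) := by
                apply div_le_div_of_nonneg_left hcc0 (by positivity) h10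
            _ = 4 * cc / (δ * Real.log x) := by
                field_simp
        · positivity
    refine (Finset.sum_le_sum hpt).trans ?_
    rw [Finset.sum_add_distrib, ← Finset.mul_sum, Finset.sum_boole]
    have h7 : (((Finset.Ico 1 x).filter (fun n => n < ⌈y⌉₊)).card : ℝ) ≤ y + 1 := by
      have e1 : ((Finset.Ico 1 x).filter (fun n => n < ⌈y⌉₊)) ⊆ Finset.Ico 1 ⌈y⌉₊ := by
        intro n hn
        obtain ⟨h7, h8⟩ := Finset.mem_filter.1 hn
        exact Finset.mem_Ico.2 ⟨(Finset.mem_Ico.1 h7).1, h8⟩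
      have e2 := Finset.card_le_card e1
      rw [Nat.card_Ico] at e2
      have e3 : (⌈y⌉₊ : ℝ) < y + 1 := Nat.ceil_lt_add_one hy0
      have e4 : (((Finset.Ico 1 x).filter (fun n => n < ⌈y⌉₊)).card : ℝ) ≤ (⌈y⌉₊ : ℝ) := by
        exact_mod_cast e2.trans (Nat.sub_le _ _)
      linarith
    linarith
  have hx0 : 0 < x := by omega
  have hsplit : ∀ j, (chains A ω a b j x : ℝ) = uc A a b j 0 ω + ∑ n ∈ Finset.Ico 1 x, uc A a b j n ω := by
    intro j
    rw [chains_sum A ω ha b hab, Finset.range_eq_Ico, Finset.sum_eq_sum_Ico_succ_bot hx0]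
  have hk1 := hsplit (k + 1)
  have hk0 := hsplit k
  have hu0 := uc_bounds A a b k 0 ω
  have hu1 := uc_bounds A a b (k + 1) 0 ω
  set S := ∑ n ∈ Finset.Ico 1 x, uc A a b k n ω with hS
  have hSN : S ≤ chains A ω a b k x := by linarith
  have hq : 0 ≤ 4 * cc / (δ * Real.log x) := by positivity
  have h8 : 4 * cc / (δ * Real.log x) * S ≤ 4 * cc / (δ * Real.log x) * chains A ω a b k x :=
    mul_le_mul_of_nonneg_left hSN hq
  have h9 : 3 + 2 * y + C * Real.log x ≤ (chains A ω a b k x : ℝ) / Real.log x := by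
    rw [le_div_iff₀ hlog0]
    have e1 : 3 + 2 * y + C * Real.log x ≤ (C + 7) * y := by nlinarith
    calc (3 + 2 * y + C * Real.log x) * Real.log x ≤ (C + 7) * y * Real.log x :=
          mul_le_mul_of_nonneg_right e1 hlog0.le
      _ = y * (Real.log x * (C + 7)) := by ring
      _ ≤ y * y := mul_le_mul_of_nonneg_left h3 hy0
      _ ≤ _ := by rw [hyy]; exact hN
  have e5 : (8 * cc / δ + 1) / Real.log x * (chains A ω a b k x : ℝ) =
      2 * (4 * cc / (δ * Real.log x) * chains A ω a b k x) + (chains A ω a b k x : ℝ) / Real.log x := by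
    field_simp
    ring
  rw [e5]
  linarith

end Pool.Agent.N9.CC
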